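import Pool.Agent.helper62.QU.Spec

/-!
# MP_07c750, row SYC
-/

open scoped MatrixGroups ContDiff Topology UpperHalfPlane
open UpperHalfPlane MeasureTheory Filter Set

namespace Pool.Agent.QU

theorem SYC (h1 : TTT_stmt) (_h2 : LAK_stmt) (_h3 : CVB_stmt) (h4 : SYM_stmt) : SYC_stmt := by
  obtain ⟨_, _, tsym, tinv, tcont, tdist, _, _⟩ := h1
  intro Γ F κ f g hΓ hF hκ hf hg
  have hκc : Continuous κ := hκ.smooth.continuous
  obtain ⟨s, hs⟩ := hκ.supp
  have key := h4 Γ F ℝ (fun z w => κ (tt z w) * f w * g z) hΓ hF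
    (by
      have e : (Function.uncurry fun z w : ℍ => κ (tt z w) * f w * g z) =
          fun p : ℍ × ℍ => κ (tt p.1 p.2) * f p.2 * g p.1 := by
        funext p
        rfl
      rw [e]
      exact ((hκc.comp tcont).mul (hf.1.comp continuous_snd)).mul (hg.1.comp continuous_fst))
    (by
      intro γ z w
      have e1 : tt (γ • z) (γ • w) = tt z w := tinv (γ : SL(2, ℝ)) z w
      show κ (tt (γ • z) (γ • w)) * f (γ • w) * g (γ • z) = κ (tt z w) * f w * g z
      rw [e1, hf.2, hg.2])
    (by
      obtain ⟨R, _, hR⟩ := tdist s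
      refine ⟨R, fun z w hne => hR z w ?_⟩
      by_contra hcon
      push Not at hcon
      apply hne
      show κ (tt z w) * f w * g z = 0
      rw [hs _ hcon.le, zero_mul, zero_mul])
  have hL : (∫ z in F, conv κ f z * g z) = ∫ z in F, ∫ w : ℍ, κ (tt z w) * f w * g z := by
    congr 1
    funext z
    unfold conv
    rw [← integral_mul_const]
    rfl
  have hR : (∫ z in F, f z * conv κ g z) = ∫ z in F, ∫ w : ℍ, κ (tt w z) * f z * g w := by
    congr 1
    funext z
    unfold conv
    rw [← integral_const_mul]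
    congr 1
    funext w
    rw [tsym w z, smul_eq_mul]
    ring
  rw [hL, hR]
  exact key

end Pool.Agent.QU
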